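import Mathlib
import Pool.Agent.helper12.FI3.Defs
import Pool.Agent.helper59.FI2.DefsC2

/-!
# Project fi3 (MP_baa4d7_al), block P3: the local data without `cyc`

`LoS`: the fields of `Lo3` without `ny` and `cyc` (the inertial quotient need not be abelian). `Lo3.toLoS`; `LoS.of2`: from the
structure `Lo0` of version 2 (free action).
-/

set_option autoImplicit false

namespace Pool.Agent.FI3

open Pool.Agent.helper58.DC Pool.Agent.DI Pool.Agent.GR Pool.Agent.OB Pool.Agent.DR Pool.Agent.FI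

section

variable {G : Type} [Group G]

/-- The local data for a semi-free inertial quotient. -/
structure LoS (p : ℕ) (M : Ideal (integralClosure ℤ ℂ)) (D : Subgroup G) (x : G) (θ χ : G → ℂ) :
    Prop where
  rt : Rt p M D x θ χ
  sfr : SFree M D θ
  bet : ¬ p ∣ (cz D).relIndex (TT M D θ)
  con : ∀ Q : Subgroup G, IsPGroup p Q → ∀ ψ ∈ IrrOn (cz Q), Induces M ψ χ →
    ∃ g : G, cjS g Q ≤ D ∧ SB M (cz (cjS g Q)) θ (cjF g ψ)
  cnj : ∀ P ≤ D, ∀ ψ ∈ IrrOn (cz P), SB M (cz P) θ ψ → ∀ D₁ : Subgroup G, IsPGroup p D₁ →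
    P ≤ D₁ → Nat.card D₁ = Nat.card D → ∀ θ₁ ∈ IrrOn (cz D₁), SB M (cz P) θ₁ ψ →
    ∃ l ∈ cz P, cjS l D₁ = D ∧ SB M (cz D) (cjF l θ₁) θ
  dfl : ∀ P ≤ D, ∀ ψ ∈ IrrOn (cz P), SB M (cz P) θ ψ → ∃ x' ∈ cz D, DefL p M (cz P) ψ D x'
  eqr : ∀ P ≤ D, ∀ y ∈ cz P, PEl p y → ∀ z ∈ Cz (cz P) y,
    InM M (eS (cz P) (Bl M (cz P) θ) z - eS (Cz (cz P) y) (BlC M (cz P) θ y) z)

theorem Lo3.toLoS {p : ℕ} {M : Ideal (integralClosure ℤ ℂ)} {D : Subgroup G} {x : G} {θ χ : G → ℂ}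
    (h : Lo3 p M D x θ χ) : LoS p M D x θ χ :=
  { rt := h.rt, sfr := h.sfr, bet := h.bet, con := h.con, cnj := h.cnj, dfl := h.dfl, eqr := h.eqr }

theorem Lg3.toLoS {p : ℕ} {M : Ideal (integralClosure ℤ ℂ)} {D : Subgroup G} {x : G} {θ χ : G → ℂ}
    (h : Lg3 p M D x θ χ) : LoS p M D x θ χ := h.lo.toLoS

theorem mem_YY {M : Ideal (integralClosure ℤ ℂ)} {D : Subgroup G} {θ : G → ℂ} {u : G} :
    u ∈ YY M D θ ↔ u ∈ D ∧ ∀ t ∈ TT M D θ, t * u = u * t := by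
  unfold YY
  rw [Subgroup.mem_inf, Subgroup.mem_centralizer_iff]
  rfl

theorem YY_le {M : Ideal (integralClosure ℤ ℂ)} {D : Subgroup G} {θ : G → ℂ} : YY M D θ ≤ D := inf_le_left

theorem LoS.of2 {p : ℕ} {M : Ideal (integralClosure ℤ ℂ)} {D : Subgroup G} {x : G} {θ χ : G → ℂ}
    (h : Pool.Agent.FI2.Lo0 p M D x θ χ) : LoS p M D x θ χ :=
  { rt := h.rt
    sfr := by
      intro t ht u hu htu
      by_cases h1 : u = 1
      · left
        rw [h1]
        exact (YY M D θ).one_mem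
      · exact Or.inr (h.free t ht u hu h1 htu)
    bet := h.bet
    con := h.con
    cnj := h.cnj
    dfl := h.dfl
    eqr := h.eqr }

/-- In version 2 (free action), if the inertial quotient is not trivial, then `YY = ⊥`. -/
theorem YY_bot {M : Ideal (integralClosure ℤ ℂ)} {D : Subgroup G} {θ : G → ℂ} (h : Free M D θ)
    (hT : ¬ TT M D θ ≤ cz D) : YY M D θ = ⊥ := by
  rw [Subgroup.eq_bot_iff_forall]
  intro u hu
  by_contra h1
  obtain ⟨hu1, hu2⟩ := mem_YY.1 hu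
  exact hT fun t ht => h t ht u hu1 h1 (hu2 t ht)

/-- If `P` is not contained in `YY` then `TT ⊓ cz P ≤ cz D`. -/
theorem P3_TL {M : Ideal (integralClosure ℤ ℂ)} {D : Subgroup G} {θ : G → ℂ} (h : SFree M D θ)
    {P : Subgroup G} (hP : P ≤ D) (hPY : ¬ P ≤ YY M D θ) {t : G} (ht : t ∈ TT M D θ) (htP : t ∈ cz P) :
    t ∈ cz D := by
  obtain ⟨u, hu, huY⟩ := SetLike.not_le_iff_exists.1 hPY
  rcases h t ht u (hP hu) (((Subgroup.mem_centralizer_iff.1 htP) u hu).symm) with h1 | h1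
  · exact absurd h1 huY
  · exact h1

end

end Pool.Agent.FI3
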