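import Mathlib
import Pool.Agent.helper59.FI3.DefsP3
import Pool.Agent.helper12.FI.SpecQ
import Pool.Agent.helper70.FI.SpecQ1
import Pool.Agent.helper1.FI.SpecQ2
import Pool.Agent.helper59.FI.SpecB2

/-!
# Project fi3 (MP_baa4d7_al), block P3: the rows of project fi which go over to `LoS`

`XXX3`: the row `XXX` of project fi for all `P ≤ D`; `XXXp`: the row for the `P ≤ D` which are not contained in `YY M D θ`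
(then `TT M D θ ⊓ cz P = cz D`). `LoS` (`DefsP3`): `Lo3` without the fields `ny`, `cyc`; use `h.toLoS` for `h : Lo3 ..` or `h : Lg3 ..`. OUTPUT: `LO3`, `FRA3`, `QGO3`, and `LG3`: `LoS → Lg3`.
-/

set_option autoImplicit false

namespace Pool.Agent.FI3

open Pool.Agent.helper58.DC Pool.Agent.DI Pool.Agent.GR Pool.Agent.OB Pool.Agent.DR Pool.Agent.FI

/-- **CYC**. An abelian group `T / C` of automorphisms of the abelian group `D`, of order prime to `p`, such that all elements of `T` outside `C` have the same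
centraliser `Y` in `D`, `Y ≠ D`, is cyclic. -/
def CYC_stmt : Prop :=
  ∀ (p : ℕ), p.Prime → ∀ (G : Type) [Group G] [Finite G] (D C T Y : Subgroup G), IsPGroup p D → Y ≤ D → ¬ D ≤ Y →
    (∀ c ∈ D, ∀ d ∈ D, c * d = d * c) → C ≤ T → T ≤ nz D → (∀ c ∈ C, ∀ d ∈ D, c * d = d * c) →
    (∀ t ∈ T, ∀ c ∈ C, t * c * t⁻¹ ∈ C) → ¬ p ∣ C.relIndex T →
    (∀ s ∈ T, ∀ t ∈ T, s * t * s⁻¹ * t⁻¹ ∈ C) → (∀ t ∈ T, ∀ u ∈ Y, t * u = u * t) →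
    (∀ t ∈ T, ∀ u ∈ D, t * u = u * t → u ∈ Y ∨ t ∈ C) → CyS C T

/-- **LO3**. From CON CNJ DFL BET EQY of the blocks A, and CYC. -/
def LO3_stmt : Prop :=
  ∀ (p : ℕ) (M : Ideal (integralClosure ℤ ℂ)), Setup p M → ∀ (G : Type) [Group G] [Finite G]
    (D : Subgroup G) (x : G) (θ χ : G → ℂ), Rt p M D x θ χ → SFree M D θ → ¬ D ≤ YY M D θ →
    (∀ s ∈ TT M D θ, ∀ t ∈ TT M D θ, s * t * s⁻¹ * t⁻¹ ∈ cz D) → Lo3 p M D x θ χ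

/-- **FRA3** -/
def FRA3_stmt : Prop :=
  ∀ (p : ℕ) (M : Ideal (integralClosure ℤ ℂ)), Setup p M → ∀ (G : Type) [Group G] [Finite G]
    (D : Subgroup G) (x : G) (θ χ : G → ℂ), LoS p M D x θ χ → ∀ P ≤ D,
    (cz D ≤ TT M D θ ∧ cz D ≤ cz P ∧ D ≤ cz P ∧ (P ≤ YY M D θ → TT M D θ ≤ cz P) ∧
      (¬ P ≤ YY M D θ → TT M D θ ⊓ cz P = cz D)) ∧
    (∀ n ∈ nz P, ∀ ψ ∈ Bl M (cz P) θ, cjF n ψ ∈ Bl M (cz P) θ → ∃ k ∈ cz P, k * n ∈ TT M D θ) ∧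
    (∀ t ∈ TT M D θ, t ∈ nz P → ∀ ψ ∈ Bl M (cz P) θ, cjF t ψ ∈ Bl M (cz P) θ)

/-- **HTZ3** -/
def HTZ3_stmt : Prop :=
  ∀ (p : ℕ) (M : Ideal (integralClosure ℤ ℂ)), Setup p M → ∀ (G : Type) [Group G] [Finite G]
    (D : Subgroup G) (x : G) (θ χ : G → ℂ), LoS p M D x θ χ → ∀ P ≤ D, Good p M D (cz P) θ →
    ∀ ψ ∈ Bl M (cz P) θ, ∀ a : ℕ, Nat.card D = p ^ a → Defect p (cz P) ψ a

/-- **DOR3** -/
def DOR3_stmt : Prop :=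
  ∀ (p : ℕ) (M : Ideal (integralClosure ℤ ℂ)), Setup p M → ∀ (G : Type) [Group G] [Finite G]
    (D : Subgroup G) (x : G) (θ χ : G → ℂ), LoS p M D x θ χ → ∀ P ≤ D, ∀ a ∈ D, ∀ u ∈ D,
    Good p M D (Cz (cz P) a) θ → Good p M D (Cz (cz P) u) θ →
    (∀ χ' ∈ IrrOn (cz P), χ' ∉ Bl M (cz P) θ → dd M (Cz (cz P) u) θ χ' u = 0) ∧
    (a = u → ∑ᶠ χ' ∈ Bl M (cz P) θ, dd M (Cz (cz P) a) θ χ' a *
      (starRingEnd ℂ) (dd M (Cz (cz P) u) θ χ' u) = Nat.card D) ∧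
    ((¬ ∃ t ∈ TT M D θ ⊓ cz P, t * u * t⁻¹ = a) →
      ∑ᶠ χ' ∈ Bl M (cz P) θ, dd M (Cz (cz P) a) θ χ' a *
        (starRingEnd ℂ) (dd M (Cz (cz P) u) θ χ' u) = 0)

/-- **DDT3** -/
def DDT3_stmt : Prop :=
  ∀ (p : ℕ) (M : Ideal (integralClosure ℤ ℂ)), Setup p M → ∀ (G : Type) [Group G] [Finite G]
    (D : Subgroup G) (x : G) (θ χ : G → ℂ), LoS p M D x θ χ → ∀ P ≤ D, ∀ t ∈ TT M D θ, t ∈ nz P →
    ∀ u ∈ D, ∀ ψ ∈ IrrOn (cz P),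
    dd M (Cz (cz P) (t * u * t⁻¹)) θ (cjF t ψ) (t * u * t⁻¹) = dd M (Cz (cz P) u) θ ψ u

/-- **QCN3** -/
def QCN3_stmt : Prop :=
  ∀ (p : ℕ) (M : Ideal (integralClosure ℤ ℂ)), Setup p M → ∀ (G : Type) [Group G] [Finite G]
    (D : Subgroup G) (x : G) (θ χ : G → ℂ), LoS p M D x θ χ → ∀ P ≤ D, ∀ y ∈ cz P, PEl p y →
    ∀ η ∈ IrrOn (Cz (cz P) y), SB M (cz P) η θ →
    ∃ l ∈ cz P, l * y * l⁻¹ ∈ D ∧ SB M (Cz (cz P) (l * y * l⁻¹)) θ (cjF l η)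

/-- **QFU3** -/
def QFU3_stmt : Prop :=
  ∀ (p : ℕ) (M : Ideal (integralClosure ℤ ℂ)), Setup p M → ∀ (G : Type) [Group G] [Finite G]
    (D : Subgroup G) (x : G) (θ χ : G → ℂ), LoS p M D x θ χ → ∀ P ≤ D, ∀ u ∈ D, ∀ l ∈ cz P,
    l * u * l⁻¹ ∈ D → ∀ ψ ∈ IrrOn (Cz (cz P) u), SB M (Cz (cz P) u) θ ψ →
    SB M (Cz (cz P) (l * u * l⁻¹)) θ (cjF l ψ) →
    ∃ k ∈ Cz (cz P) (l * u * l⁻¹), k * l ∈ TT M D θ

/-- **QN23** -/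
def QN23_stmt : Prop :=
  ∀ (p : ℕ) (M : Ideal (integralClosure ℤ ℂ)), Setup p M → ∀ (G : Type) [Group G] [Finite G]
    (D : Subgroup G) (x : G) (θ χ : G → ℂ), LoS p M D x θ χ → ∀ P ≤ D, ∀ u ∈ D,
    Good p M D (Cz (cz P) u) θ → ∀ j : G → ℂ, Idm M (Cz (cz P) u) j → Inv (cz D) j →
    cv (eBl M (cz D) θ) j = j → (∀ y ∈ cz D, InM M (j y - eBl M (cz D) θ y)) →
    ∃ N : ℕ, ¬ p ∣ N ∧ ∀ ψ ∈ Bl M (Cz (cz P) u) θ, ev ψ j 1 = N * θ 1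

/-- **QN33** -/
def QN33_stmt : Prop :=
  ∀ (p : ℕ) (M : Ideal (integralClosure ℤ ℂ)), Setup p M → ∀ (G : Type) [Group G] [Finite G]
    (D : Subgroup G) (x : G) (θ χ : G → ℂ), LoS p M D x θ χ → ∀ P ≤ D, ∀ i : G → ℂ,
    Inv (TT M D θ ⊓ cz P) i → ∀ u ∈ D, Good p M D (Cz (cz P) u) θ → ∀ t ∈ TT M D θ ⊓ cz P,
    ∀ a b : ℂ, (∀ φ ∈ IrrOn (cz P), ev φ i u = a * dd M (Cz (cz P) u) θ φ u) →
    (∀ φ ∈ IrrOn (cz P), ev φ i (t * u * t⁻¹) =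
      b * dd M (Cz (cz P) (t * u * t⁻¹)) θ φ (t * u * t⁻¹)) → a = b

/-- **QWTp** -/
def QWTp_stmt : Prop :=
  ∀ (p : ℕ) (M : Ideal (integralClosure ℤ ℂ)), Setup p M → ∀ (G : Type) [Group G] [Finite G]
    (D : Subgroup G) (x : G) (θ χ : G → ℂ), LoS p M D x θ χ → ∀ P ≤ D, ¬ P ≤ YY M D θ → ∀ y ∈ cz P, PEl p y → y ≠ 1 →
    ∀ η ∈ IrrOn (Cz (cz P) y), SB M (cz P) η θ →
    Nat.card {q : G × G // q.1 ∈ cz P ∧ q.2 ∈ D ∧ q.1 * q.2 * q.1⁻¹ = y ∧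
      SB M (Cz (cz P) y) (cjF q.1 θ) η} = iL M D (cz P) θ * Nat.card (Cz (cz P) y)

/-- **QMYp** -/
def QMYp_stmt : Prop :=
  ∀ (p : ℕ) (M : Ideal (integralClosure ℤ ℂ)), Setup p M → ∀ (G : Type) [Group G] [Finite G]
    (D : Subgroup G) (x : G) (θ χ : G → ℂ), LoS p M D x θ χ → ∀ P ≤ D, ¬ P ≤ YY M D θ → ∀ y ∈ cz P, PEl p y → y ≠ 1 →
    (∀ l ∈ cz P, ∀ u ∈ D, l * u * l⁻¹ = y → Good p M D (Cz (cz P) u) θ) →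
    ∀ χ' ∈ Bl M (cz P) θ,
    (Nat.card D : ℂ) * (iL M D (cz P) θ : ℂ) *
      ∑ᶠ v ∈ {v : G | v ∈ Cz (cz P) y ∧ PReg p v}, χ' (y * v) * χ' (y * v)⁻¹ =
    ∑ᶠ q ∈ {q : G × G | q.1 ∈ cz P ∧ q.2 ∈ D ∧ q.1 * q.2 * q.1⁻¹ = y},
      dd M (Cz (cz P) q.2) θ χ' q.2 * (starRingEnd ℂ) (dd M (Cz (cz P) q.2) θ χ' q.2)

/-- **QMXp** -/
def QMXp_stmt : Prop :=
  ∀ (p : ℕ) (M : Ideal (integralClosure ℤ ℂ)), Setup p M → ∀ (G : Type) [Group G] [Finite G]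
    (D : Subgroup G) (x : G) (θ χ : G → ℂ), LoS p M D x θ χ → ∀ P ≤ D, ¬ P ≤ YY M D θ → GU p M D (cz P) θ →
    ∀ χ' ∈ Bl M (cz P) θ,
    (1 : ℂ) = (Nat.card (Zc D (cz P)) : ℂ) * EE p (cz P) χ' χ' +
      (∑ᶠ u ∈ {u : G | u ∈ D ∧ ¬ Cen (cz P) u}, dd M (Cz (cz P) u) θ χ' u *
        (starRingEnd ℂ) (dd M (Cz (cz P) u) θ χ' u)) /
        ((Nat.card D : ℂ) * (iL M D (cz P) θ : ℂ))

/-- **QVNp** -/
def QVNp_stmt : Prop :=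
  ∀ (p : ℕ) (M : Ideal (integralClosure ℤ ℂ)), Setup p M → ∀ (G : Type) [Group G] [Finite G]
    (D : Subgroup G) (x : G) (θ χ : G → ℂ), LoS p M D x θ χ → ∀ P ≤ D, ¬ P ≤ YY M D θ → GU p M D (cz P) θ →
    ∀ χ' ∈ Bl M (cz P) θ,
    (∀ u ∈ D, ¬ Cen (cz P) u → dd M (Cz (cz P) u) θ χ' u = 0) →
    EE p (cz P) χ' χ' = 1 / (Nat.card (Zc D (cz P)) : ℂ) ∧
    ∃ n d : ℕ, χ' 1 = d ∧ n * (Nat.card (Zc D (cz P)) * d) = Nat.card (cz P)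

/-- **QNUp** -/
def QNUp_stmt : Prop :=
  ∀ (p : ℕ) (M : Ideal (integralClosure ℤ ℂ)), Setup p M → ∀ (G : Type) [Group G] [Finite G]
    (D : Subgroup G) (x : G) (θ χ : G → ℂ), LoS p M D x θ χ → ∀ P ≤ D, ¬ P ≤ YY M D θ → GU p M D (cz P) θ →
    ∀ i : G → ℂ, QI M D (cz P) θ i → ∃ n : G → ℤ, ∀ u ∈ D, ¬ Cen (cz P) u →
      ¬ (p : ℤ) ∣ n u ∧
      (∀ φ ∈ IrrOn (cz P), ev φ i u / θ 1 = n u * dd M (Cz (cz P) u) θ φ u) ∧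
      (∀ t ∈ TT M D θ ⊓ cz P, n (t * u * t⁻¹) = n u) ∧ ∀ s : ℕ, ¬ p ∣ s → n (u ^ s) = n u

/-- **QLAp** -/
def QLAp_stmt : Prop :=
  ∀ (p : ℕ) (M : Ideal (integralClosure ℤ ℂ)), Setup p M → p ≠ 2 → ∀ (G : Type) [Group G] [Finite G]
    (D : Subgroup G) (x : G) (θ χ : G → ℂ), LoS p M D x θ χ → ∀ P ≤ D, ¬ P ≤ YY M D θ →
    (∃ u ∈ D, ¬ Cen (cz P) u) → GU p M D (cz P) θ →
    ∃ (I : Subgroup (MulAut D)) (β : Bl M (cz P) θ → D → ℂ) (n : D → ℤ),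
      Nat.card I = iL M D (cz P) θ ∧
      LAD p M ((Zc D (cz P)).subgroupOf D) I β (fun ψ u => dd M (Cz (cz P) u) θ ψ u) n ∧
      ∀ ψ : Bl M (cz P) θ, ∃ N k : ℕ, β ψ 1 = N ∧ N ≠ 0 ∧ (ψ : G → ℂ) 1 = k ∧
        padicValNat p N + padicValNat p (Nat.card (cz P)) =
          padicValNat p k + padicValNat p (Nat.card D)

/-- **QMFp** -/
def QMFp_stmt : Prop :=
  ∀ (p : ℕ) (M : Ideal (integralClosure ℤ ℂ)), Setup p M → ∀ (G : Type) [Group G] [Finite G]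
    (D : Subgroup G) (x : G) (θ χ : G → ℂ), LoS p M D x θ χ → ∀ P ≤ D, ¬ P ≤ YY M D θ → GU p M D (cz P) θ →
    ∀ ψ ∈ Bl M (cz P) θ, (1 : ℂ) = Nat.card (Zc D (cz P)) * EE p (cz P) ψ ψ +
      ((∑ᶠ u ∈ {u : D | u ∉ (Zc D (cz P)).subgroupOf D}, ‖dd M (Cz (cz P) u) θ ψ u‖ ^ 2 : ℝ) : ℂ) /
        (Nat.card D * iL M D (cz P) θ)

/-- **QGLp**. The local step. -/
def QGLp_stmt : Prop :=
  ∀ (p : ℕ) (M : Ideal (integralClosure ℤ ℂ)), Setup p M → p ≠ 2 → ∀ (G : Type) [Group G] [Finite G]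
    (D : Subgroup G) (x : G) (θ χ : G → ℂ), LoS p M D x θ χ → ∀ P ≤ D, ¬ P ≤ YY M D θ →
    (∃ u ∈ D, ¬ Cen (cz P) u) → GU p M D (cz P) θ → Good p M D (cz P) θ

/-- **QGO3**. All local blocks with trivial inertial quotient are good. -/
def QGO3_stmt : Prop :=
  ∀ (p : ℕ) (M : Ideal (integralClosure ℤ ℂ)), Setup p M → p ≠ 2 → ∀ (G : Type) [Group G] [Finite G]
    (D : Subgroup G) (x : G) (θ χ : G → ℂ), LoS p M D x θ χ → ∀ P ≤ D, ¬ P ≤ YY M D θ → Good p M D (cz P) θ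

/-- **LG3** -/
def LG3_stmt : Prop :=
  ∀ (p : ℕ) (M : Ideal (integralClosure ℤ ℂ)), Setup p M → p ≠ 2 → ∀ (G : Type) [Group G] [Finite G]
    (D : Subgroup G) (x : G) (θ χ : G → ℂ), Lo3 p M D x θ χ → Lg3 p M D x θ χ

end Pool.Agent.FI3
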