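import Pool.Agent.helper59.FI3.SpecP3

/-!
# Project fi3 (MP_baa4d7_al), block P3: rows CYC and LO3
-/

set_option autoImplicit false

namespace Pool.Agent.FI3

open Pool.Agent.helper58.DC Pool.Agent.DI Pool.Agent.GR Pool.Agent.OB Pool.Agent.DR Pool.Agent.FI

theorem CYC_conj {G : Type} [Group G] {D T : Subgroup G} (h : T ≤ nz D) {t : G} (ht : t ∈ T) {u : G}
    (hu : u ∈ D) : t * u * t⁻¹ ∈ D := (Subgroup.mem_normalizer_iff.1 (h ht) u).1 hu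

theorem CYC (hFCY : FCY_stmt) : CYC_stmt := by
  classical
  intro p hp G _ _ D C T Y hD hYD hDY hcom hCT hT hC hCn hidx hab hY hfr
  by_cases hTC : T ≤ C
  · refine ⟨1, T.one_mem, fun x hx => ⟨0, ?_⟩⟩
    rw [zpow_zero, one_mul]
    exact hTC hx
  obtain ⟨t₀, ht₀, ht₀C⟩ := SetLike.not_le_iff_exists.1 hTC
  -- the range of `u ↦ u⁻¹ * (t₀ * u * t₀⁻¹)`
  let D' : Subgroup G :=
    { carrier := {y | ∃ u ∈ D, y = u⁻¹ * (t₀ * u * t₀⁻¹)}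
      one_mem' := ⟨1, D.one_mem, by group⟩
      mul_mem' := by
        rintro a b ⟨u, hu, rfl⟩ ⟨v, hv, rfl⟩
        refine ⟨u * v, D.mul_mem hu hv, ?_⟩
        have h1 := hcom (t₀ * u * t₀⁻¹) (CYC_conj hT ht₀ hu) v⁻¹ (D.inv_mem hv)
        have h2 := hcom u hu v hv
        calc u⁻¹ * (t₀ * u * t₀⁻¹) * (v⁻¹ * (t₀ * v * t₀⁻¹))
            = u⁻¹ * ((t₀ * u * t₀⁻¹) * v⁻¹) * (t₀ * v * t₀⁻¹) := by group
          _ = u⁻¹ * (v⁻¹ * (t₀ * u * t₀⁻¹)) * (t₀ * v * t₀⁻¹) := by rw [h1]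
          _ = (v * u)⁻¹ * (t₀ * (u * v) * t₀⁻¹) := by group
          _ = (u * v)⁻¹ * (t₀ * (u * v) * t₀⁻¹) := by rw [h2]
      inv_mem' := by
        rintro a ⟨u, hu, rfl⟩
        refine ⟨u⁻¹, D.inv_mem hu, ?_⟩
        have h1 := hcom (t₀ * u⁻¹ * t₀⁻¹) (CYC_conj hT ht₀ (D.inv_mem hu)) u hu
        calc (u⁻¹ * (t₀ * u * t₀⁻¹))⁻¹ = (t₀ * u⁻¹ * t₀⁻¹) * u := by group
          _ = u * (t₀ * u⁻¹ * t₀⁻¹) := h1
          _ = u⁻¹⁻¹ * (t₀ * u⁻¹ * t₀⁻¹) := by rw [inv_inv] }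
  have hmem : ∀ y, y ∈ D' ↔ ∃ u ∈ D, y = u⁻¹ * (t₀ * u * t₀⁻¹) := fun y => Iff.rfl
  have hD'D : D' ≤ D := by
    intro y hy
    obtain ⟨u, hu, rfl⟩ := (hmem y).1 hy
    exact D.mul_mem (D.inv_mem hu) (CYC_conj hT ht₀ hu)
  have hfwd : ∀ t ∈ T, ∀ y ∈ D', t * y * t⁻¹ ∈ D' := by
    intro t ht y hy
    obtain ⟨u, hu, rfl⟩ := (hmem y).1 hy
    refine (hmem _).2 ⟨t * u * t⁻¹, CYC_conj hT ht hu, ?_⟩
    have hc : t * t₀ * t⁻¹ * t₀⁻¹ ∈ C := hab t ht t₀ ht₀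
    have h1 := hC _ hc (t₀ * (t * u * t⁻¹) * t₀⁻¹) (CYC_conj hT ht₀ (CYC_conj hT ht hu))
    have h2 : t * (u⁻¹ * (t₀ * u * t₀⁻¹)) * t⁻¹ =
        (t * u * t⁻¹)⁻¹ * ((t * t₀ * t⁻¹ * t₀⁻¹) * (t₀ * (t * u * t⁻¹) * t₀⁻¹) *
          (t * t₀ * t⁻¹ * t₀⁻¹)⁻¹) := by group
    rw [h2, h1]
    group
  have hT' : T ≤ nz D' := by
    intro t ht
    rw [Subgroup.mem_normalizer_iff]
    intro y
    refine ⟨hfwd t ht y, fun h1 => ?_⟩
    have h2 := hfwd t⁻¹ (T.inv_mem ht) _ h1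
    have h3 : t⁻¹ * (t * y * t⁻¹) * t⁻¹⁻¹ = y := by group
    rwa [h3] at h2
  have hne : D' ≠ ⊥ := by
    intro h1
    apply hDY
    intro u hu
    have h2 : u⁻¹ * (t₀ * u * t₀⁻¹) ∈ D' := (hmem _).2 ⟨u, hu, rfl⟩
    rw [h1, Subgroup.mem_bot] at h2
    have h3 : t₀ * u = u * t₀ := by
      have h4 : t₀ * u * t₀⁻¹ = u := by
        have h5 : u * (u⁻¹ * (t₀ * u * t₀⁻¹)) = u * 1 := by rw [h2]
        rw [mul_one] at h5
        have h6 : u * (u⁻¹ * (t₀ * u * t₀⁻¹)) = t₀ * u * t₀⁻¹ := by group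
        rwa [h6] at h5
      calc t₀ * u = (t₀ * u * t₀⁻¹) * t₀ := by group
        _ = u * t₀ := by rw [h4]
    rcases hfr t₀ ht₀ u hu h3 with h4 | h4
    · exact h4
    · exact absurd h4 ht₀C
  -- the index
  set k := C.relIndex T with hk
  have hnorm : (C.subgroupOf T).Normal := by
    refine ⟨fun c hc t => ?_⟩
    rw [Subgroup.mem_subgroupOf] at hc ⊢
    exact hCn t t.2 c hc
  have htk : t₀ ^ k ∈ C := by
    have h1 := Subgroup.pow_index_mem (C.subgroupOf T) (⟨t₀, ht₀⟩ : T)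
    rw [Subgroup.mem_subgroupOf] at h1
    exact h1
  refine hFCY G D' C T hne (fun c hc d hd => hcom c (hD'D hc) d (hD'D hd)) hCT hT'
    (fun c hc d hd => hC c hc d (hD'D hd)) hab fun t ht y hy hy1 hty => ?_
  rcases hfr t ht y (hD'D hy) hty with h1 | h1
  · exfalso
    apply hy1
    obtain ⟨u, hu, hyu⟩ := (hmem y).1 hy
    have hyD : y ∈ D := hYD h1
    have h2 : t₀ * u * t₀⁻¹ = u * y := by
      rw [hyu]
      group
    have h3 : ∀ j : ℕ, t₀ ^ j * u * (t₀ ^ j)⁻¹ = u * y ^ j := by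
      intro j
      induction j with
      | zero => group
      | succ j ih =>
        have h4 : t₀ ^ (j + 1) * u * (t₀ ^ (j + 1))⁻¹ = t₀ * (t₀ ^ j * u * (t₀ ^ j)⁻¹) * t₀⁻¹ := by
          rw [pow_succ']
          group
        have h5 : t₀ * y ^ j = y ^ j * t₀ := hY t₀ ht₀ (y ^ j) (Y.pow_mem h1 j)
        rw [h4, ih]
        calc t₀ * (u * y ^ j) * t₀⁻¹ = (t₀ * u * t₀⁻¹) * ((t₀ * y ^ j) * t₀⁻¹) := by group
          _ = (u * y) * ((y ^ j * t₀) * t₀⁻¹) := by rw [h2, h5]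
          _ = u * y ^ (j + 1) := by
            rw [pow_succ']
            group
    have h4 := h3 k
    have h5 := hC _ htk u hu
    have h6 : y ^ k = 1 := by
      rw [h5] at h4
      have h7 : u * t₀ ^ k * (t₀ ^ k)⁻¹ = u := by group
      rw [h7] at h4
      have h8 : u * 1 = u * y ^ k := by rw [mul_one]; exact h4
      exact (mul_left_cancel h8).symm
    obtain ⟨m, hm⟩ := hD ⟨y, hyD⟩
    have h7 : y ^ p ^ m = 1 := by
      have h8 := congrArg Subtype.val hm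
      simpa using h8
    have h8 : orderOf y ∣ Nat.gcd k (p ^ m) :=
      Nat.dvd_gcd (orderOf_dvd_of_pow_eq_one h6) (orderOf_dvd_of_pow_eq_one h7)
    have h9 : Nat.gcd k (p ^ m) = 1 := by
      have h10 : Nat.Coprime k p := ((Nat.Prime.coprime_iff_not_dvd hp).2 hidx).symm
      exact Nat.Coprime.pow_right m h10
    rw [h9, Nat.dvd_one, orderOf_eq_one_iff] at h8
    exact h8
  · exact h1

theorem LO3 (hCON : CON_stmt) (hCNJ : Pool.Agent.FI.CNJ_stmt) (hDFL : DFL_stmt) (hBET : BET_stmt)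
    (hEQY : EQY_stmt) (hCYC : CYC_stmt) : LO3_stmt := by
  intro p M hs G _ _ D x θ χ hrt hfree hnb hab
  have hD : IsPGroup p D := hrt.dfa.pgrp
  have hbet := hBET p M hs G D x θ χ hrt
  refine
    { rt := hrt
      sfr := hfree
      ny := hnb
      cyc := ?_
      bet := hbet
      con := ?_
      cnj := ?_
      dfl := ?_
      eqr := ?_ }
  · refine hCYC p hs.pr G D (cz D) (TT M D θ) (YY M D θ) hD YY_le hnb hrt.com cz_le_TT (fun t ht => ht.1) ?_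
      (fun t ht c hc => cz_conj ht.1 hc) hbet hab (fun t ht u hu => (mem_YY.1 hu).2 t ht) hfree
    intro c hc d hd
    exact (Subgroup.mem_centralizer_iff.1 hc d hd).symm
  · intro Q hQ ψ hψ hi
    obtain ⟨g, h1, h2⟩ := hCON p M hs G D x θ χ hrt Q hQ ψ hψ hi
    exact ⟨g, h1, h2⟩
  · intro P hP ψ hψ h D₁ hD₁ hPD₁ hc θ₁ hθ₁ h1
    obtain ⟨l, hl, h2, h3⟩ := hCNJ p M hs G D x θ χ hrt P hP ψ hψ h D₁ hD₁ hPD₁ hc θ₁ hθ₁ h1
    exact ⟨l, hl, h2, h3⟩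
  · intro P hP ψ hψ h
    obtain ⟨x', hx', -, h1⟩ := hDFL p M hs G D x θ χ hrt P hP ψ hψ h
    exact ⟨x', hx', h1⟩
  · intro P hP y hy hpy z hz
    exact hEQY p M hs G (cz P) y hy hpy θ z hz

theorem LG3t (hQGO : QGO3_stmt) : LG3_stmt := by
  intro p M hS hp G _ _ D x θ χ h
  exact { lo := h, good := fun P hP hPY => hQGO p M hS hp G D x θ χ h.toLoS P hP hPY }

end Pool.Agent.FI3
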