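import Pool.Agent.helper59.FI3.SpecP3

set_option autoImplicit false

namespace Pool.Agent.FI3

open Pool.Agent.helper58.DC Pool.Agent.DI Pool.Agent.GR Pool.Agent.OB Pool.Agent.DR Pool.Agent.FI

theorem DDT_sum {G : Type} [Group G] (t : G) (C : Subgroup G) (f : G → ℂ) :
    ∑ᶠ x ∈ (cjS t C : Set G), f x = ∑ᶠ x ∈ (C : Set G), f (t * x * t⁻¹) := by
  have h1 : (cjS t C : Set G) = (fun x => t * x * t⁻¹) '' (C : Set G) := by
    ext y
    constructor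
    · rintro ⟨z, hz, rfl⟩
      exact ⟨z, hz, rfl⟩
    · rintro ⟨z, hz, rfl⟩
      exact ⟨z, hz, rfl⟩
  rw [h1, finsum_mem_image]
  intro a _ b _ hab
  have h2 : t * a * t⁻¹ = t * b * t⁻¹ := hab
  exact mul_left_cancel (mul_right_cancel h2)

theorem DDT_val {G : Type} [Group G] (t : G) (ψ : G → ℂ) (x : G) : cjF t ψ (t * x * t⁻¹) = ψ x := by
  rw [cjF_apply]
  congr 1
  group

theorem DDT3 (hFEQ : FEQ_stmt) (hFSI : FSI_stmt) (hFRA : FRA3_stmt) : DDT3_stmt := by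
  intro p M hS G _ _ D x θ χ hLo P hPD t ht htP u hu ψ hψ
  have hn1 : ∀ P : Subgroup G, t ∈ nz P → cjS t (cz P) = cz P := by
    intro P hP
    have h := (hFEQ G M t 1 P P P θ θ θ).2.1
    rw [← h.1, h.2.2.2.1.2 hP]
  have htD : t ∈ nz D := ht.1
  have hinv : ∀ φ : G → ℂ, cjF t (cjF t⁻¹ φ) = φ := by
    intro φ
    have h := (hFEQ G M t t⁻¹ P P P θ φ θ).1
    rw [h.2.1, mul_inv_cancel]
    exact (hFEQ G M t 1 P P P θ φ θ).1.2.2.2
  have hinv' : ∀ φ : G → ℂ, cjF t⁻¹ (cjF t φ) = φ := by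
    intro φ
    have h := (hFEQ G M t⁻¹ t P P P θ φ θ).1
    rw [h.2.1, inv_mul_cancel]
    exact (hFEQ G M t 1 P P P θ φ θ).1.2.2.2
  have hC : cjS t (Cz (cz P) u) = Cz (cz P) (t * u * t⁻¹) := by
    rw [(hFEQ G M t 1 P P (cz P) θ θ θ).2.2.1 u, hn1 P htP]
  have htu : t * u * t⁻¹ ∈ D := (Subgroup.mem_normalizer_iff.1 htD u).1 hu
  have hcz : cz D ≤ Cz (cz P) (t * u * t⁻¹) := by
    intro c hc
    refine Subgroup.mem_inf.2 ⟨(hFRA p M hS G D x θ χ hLo P hPD).1.2.1 hc, Subgroup.mem_centralizer_iff.2 ?_⟩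
    intro y hy
    rw [Set.mem_singleton_iff.1 hy]
    exact Subgroup.mem_centralizer_iff.1 hc _ htu
  have hθ : θ ∈ IrrOn (cz D) := hLo.rt.th
  have hθt : cjF t θ ∈ IrrOn (cz D) := by
    have h := (hFEQ G M t 1 P P (cz D) θ θ θ).2.2.2.1.1 hθ
    rw [hn1 D htD] at h
    exact h
  have hSB : SB M (Cz (cz P) (t * u * t⁻¹)) (cjF t θ) θ :=
    (hFSI p M hS G (cz D) (Cz (cz P) (t * u * t⁻¹)) (cjF t θ) θ).1 hcz hθt.1 hθ.1 ht.2
  have hBl : ∀ φ : G → ℂ, φ ∈ Bl M (Cz (cz P) u) θ ↔ cjF t φ ∈ Bl M (Cz (cz P) (t * u * t⁻¹)) θ := by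
    intro φ
    have h := (hFEQ G M t 1 P P (Cz (cz P) u) θ φ θ).2.2.2.2.2.2.1
    rw [hC] at h
    rw [h]
    constructor
    · rintro ⟨h1, h2⟩
      exact ⟨h1, h2.trans hSB⟩
    · rintro ⟨h1, h2⟩
      exact ⟨h1, h2.trans hSB.symm⟩
  have hset : Bl M (Cz (cz P) (t * u * t⁻¹)) θ = cjF t '' Bl M (Cz (cz P) u) θ := by
    ext φ
    constructor
    · intro hφ
      refine ⟨cjF t⁻¹ φ, ?_, hinv φ⟩
      rw [hBl, hinv]
      exact hφ
    · rintro ⟨φ', hφ', rfl⟩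
      exact (hBl φ').1 hφ'
  unfold dd
  rw [hset, finsum_mem_image]
  · refine finsum_mem_congr rfl fun φ _ => ?_
    have e1 : cjF t φ (t * u * t⁻¹) = φ u := DDT_val t φ u
    have e2 : cjF t φ 1 = φ 1 := by
      rw [cjF_apply]
      congr 1
      group
    have e3 : mt (Cz (cz P) (t * u * t⁻¹)) (cjF t ψ) (cjF t φ) = mt (Cz (cz P) u) ψ φ := by
      unfold Pool.Agent.FI.mt
      rw [← hC, DDT_sum, (hFEQ G M t 1 (Cz (cz P) u) P P θ θ θ).2.1.2.2.2.2.2]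
      congr 1
      refine finsum_mem_congr rfl fun y _ => ?_
      rw [DDT_val]
      have e4 : (t * y * t⁻¹)⁻¹ = t * y⁻¹ * t⁻¹ := by group
      rw [e4, DDT_val]
    rw [e1, e2, e3]
  · intro a _ b _ hab
    have h := congrArg (cjF t⁻¹) hab
    rw [hinv', hinv'] at h
    exact h

end Pool.Agent.FI3
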