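import Pool.Agent.helper59.FI3.SpecP3

/-!
# Project fi (MP_baa4d7_al), block Q1, row QFU: fusion
-/

set_option autoImplicit false

namespace Pool.Agent.FI3

open Pool.Agent.helper58.DC Pool.Agent.DI Pool.Agent.GR Pool.Agent.OB Pool.Agent.FI

theorem QFU_cz {G : Type} [Group G] (P : Subgroup G) (a : G) :
    cz (P ⊔ Subgroup.zpowers a) = Cz (cz P) a := by
  ext x
  have h0 : ∀ K : Subgroup G, x ∈ cz K ↔ K ≤ Subgroup.centralizer ({x} : Set G) := by
    intro K
    constructor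
    · intro hx y hy
      rw [Subgroup.mem_centralizer_iff] at hx ⊢
      intro z hz
      rw [Set.mem_singleton_iff] at hz
      rw [hz]
      exact (hx y hy).symm
    · intro hK
      rw [Subgroup.mem_centralizer_iff]
      intro y hy
      have h1 := hK hy
      rw [Subgroup.mem_centralizer_iff] at h1
      exact (h1 x rfl).symm
  rw [h0, sup_le_iff, ← h0 P, Subgroup.zpowers_le]
  unfold Cz
  rw [Subgroup.mem_inf]
  refine and_congr_right fun _ => ?_
  rw [Subgroup.mem_centralizer_iff, Subgroup.mem_centralizer_iff]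
  constructor
  · intro h z hz
    rw [Set.mem_singleton_iff] at hz
    rw [hz]
    exact (h x rfl).symm
  · intro h z hz
    rw [Set.mem_singleton_iff] at hz
    rw [hz]
    exact (h a rfl).symm

theorem QFU3 (hFEQ : FEQ_stmt) : QFU3_stmt := by
  intro p M hs G _ _ D x θ χ lo P hP u hu l hl ha ψ hψ hSB1 hSB2
  set a := l * u * l⁻¹ with hadef
  have hP'D : P ⊔ Subgroup.zpowers a ≤ D := sup_le hP (Subgroup.zpowers_le.2 ha)
  have hczP' := QFU_cz P a
  have hlP : l ∈ nz P := by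
    rw [Subgroup.mem_normalizer_iff]
    intro y
    rw [Subgroup.mem_centralizer_iff] at hl
    constructor
    · intro hy
      have h1 := hl y hy
      have h2 : l * y * l⁻¹ = y := by rw [← h1]; group
      rwa [h2]
    · intro hy
      have h1 := hl _ hy
      have h2 : l * y * l⁻¹ = y := by
        have h3 : l * (l * y * l⁻¹) = l * (y) := by
          rw [← h1]
          group
        exact mul_left_cancel h3
      rwa [h2] at hy
  -- transport facts
  obtain ⟨⟨f1, f2, -, -⟩, ⟨f3, -, -, -, -, f4⟩, -, f5, -, -, -, -, -⟩ :=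
    hFEQ G M l 1 D D (cz D) θ θ θ
  have hcjP : cjS l P = P := (hFEQ G M l 1 P P (cz D) θ θ θ).2.1.2.2.2.1.2 hlP
  have hcjL : cjS l (cz P) = cz P := by
    have h1 := (hFEQ G M l 1 P P (cz D) θ θ θ).2.1.1
    rw [← h1, hcjP]
  have hcjC : cjS l (Cz (cz P) u) = Cz (cz P) a := by
    have h1 := (hFEQ G M l 1 P P (cz P) θ θ θ).2.2.1 u
    rw [h1, hcjL]
  have hψ' : cjF l ψ ∈ IrrOn (cz (P ⊔ Subgroup.zpowers a)) := by
    rw [hczP', ← hcjC]
    exact (hFEQ G M l 1 P P (Cz (cz P) u) θ ψ θ).2.2.2.1.1 hψ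
  have hSB2' : SB M (cz (P ⊔ Subgroup.zpowers a)) θ (cjF l ψ) := by
    rw [hczP']
    exact hSB2
  have hD1p : IsPGroup p (cjS l D) := (lo.rt.dfa.pgrp).map _
  have hD1 : P ⊔ Subgroup.zpowers a ≤ cjS l D := by
    refine sup_le ?_ (Subgroup.zpowers_le.2 ?_)
    · intro y hy
      have h1 : y ∈ cjS l P := by rw [hcjP]; exact hy
      rw [mem_cjS] at h1 ⊢
      exact hP h1
    · rw [mem_cjS, hadef]
      have h2 : l⁻¹ * (l * u * l⁻¹) * l = u := by group
      rw [h2]
      exact hu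
  have hθ1 : cjF l θ ∈ IrrOn (cz (cjS l D)) := by
    rw [f3]
    exact f5.1 lo.rt.th
  have hSB1' : SB M (cz (P ⊔ Subgroup.zpowers a)) (cjF l θ) (cjF l ψ) := by
    rw [hczP', ← hcjC]
    exact (hFEQ G M l 1 P P (Cz (cz P) u) θ ψ θ).2.2.2.2.1.1 hSB1
  obtain ⟨k, hk, hkD, hkS⟩ := lo.cnj _ hP'D _ hψ' hSB2' _ hD1p hD1 f4 _ hθ1 hSB1'
  rw [hczP'] at hk
  refine ⟨k, hk, ?_, ?_⟩
  · have h1 := (hFEQ G M k l D D (cz D) θ θ θ).1.1
    rw [h1] at hkD
    exact (hFEQ G M (k * l) 1 D D (cz D) θ θ θ).2.1.2.2.2.1.1 hkD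
  · have h1 := (hFEQ G M k l D D (cz D) θ θ θ).1.2.1
    rw [h1] at hkS
    exact hkS

end Pool.Agent.FI3
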