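import Pool.Agent.helper12.FI.All
import Pool.Agent.helper59.FI3.CYC
import Pool.Agent.helper59.FI3.FRA3
import Pool.Agent.helper59.FI3.HTZ3
import Pool.Agent.helper59.FI3.DOR3
import Pool.Agent.helper59.FI3.DDT3
import Pool.Agent.helper59.FI3.QCN3
import Pool.Agent.helper59.FI3.QFU3
import Pool.Agent.helper59.FI3.QN23
import Pool.Agent.helper59.FI3.QN33
import Pool.Agent.helper59.FI3.QWTp
import Pool.Agent.helper59.FI3.QMYp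
import Pool.Agent.helper59.FI3.QMXp
import Pool.Agent.helper59.FI3.QVNp
import Pool.Agent.helper59.FI3.QNUp
import Pool.Agent.helper59.FI3.QNZp
import Pool.Agent.helper59.FI3.QLAp
import Pool.Agent.helper59.FI3.QMFp
import Pool.Agent.helper59.FI3.QGLp
import Pool.Agent.helper59.FI3.QGO3

/-!
# Project fi3 (MP_baa4d7_al), block P3: assembly (no hypotheses)
-/

set_option autoImplicit false

namespace Pool.Agent.FI3.AllP3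

open Pool.Agent Pool.Agent.FI Pool.Agent.FI3 Pool.Agent.GR Pool.Agent.helper58.DC Pool.Agent.DI Pool.Agent.OB
  Pool.Agent.FI.AllQ

theorem pCYC : CYC_stmt := FI3.CYC AllC.cFCY
theorem pLO3 : LO3_stmt := FI3.LO3 AllB.dCON AllB.dCNJ AllA.dDFL AllA.dBET AllA.dEQY pCYC
theorem pFRA3 : FRA3_stmt := FI3.FRA3 AllC.cFEQ AllC.cFSI GR.All.dIF
theorem pHTZ3 : HTZ3_stmt := FI3.HTZ3 AllC.cHTN Pool.Agent.DR.AllDI.iC3
theorem pDOR3 : DOR3_stmt := FI3.DOR3 AllC.cDOA AllC.cDOB AllC.cDOC AllC.cEVD AllC.cEVC AllC.cFBC AllC.cFEQ GR.All.dIF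
theorem pDDT3 : DDT3_stmt := FI3.DDT3 AllC.cFEQ AllC.cFSI pFRA3
theorem pQCN3 : QCN3_stmt := FI3.QCN3 AllA.dEXB AllC.cFSI AllC.cFEQ
theorem pQFU3 : QFU3_stmt := FI3.QFU3 AllC.cFEQ
theorem pQN23 : QN23_stmt := FI3.QN23 (AllQ2.eHTI qQEV) pHTZ3 AllR.rTRP
theorem pQN33 : QN33_stmt := FI3.QN33 pDOR3 pDDT3
theorem pQWTp : QWTp_stmt := FI3.QWTp pQCN3 pQFU3 AllC.cFEQ pFRA3
theorem pQMYp : QMYp_stmt := FI3.QMYp qQMS pQWTp qQMG qQDC AllC.cFEQ GR.All.dB2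
theorem pQMXp : QMXp_stmt := FI3.QMXp pQMYp GR.All.dPPT qQCE AllR.rCHC GR.All.dB2
theorem pQVNp : QVNp_stmt := FI3.QVNp pQMXp qQIN GR.All.dB2
theorem pQNUp : QNUp_stmt := FI3.QNUp AllR.rRR1 AllQ2.dQN1 pQN23 pQN33
theorem pQLAp : QLAp_stmt :=
  FI3.QLAp aLA_LCG aLA_LCO (AllQ2.eQEU qQEV) AllQ2.dQCG pQVNp (AllQ2.eQHT qQEV)
    pQNUp AllQ2.dQID pDOR3 qQDI AllR.rEVM GR.All.dIDM AllR.rRR2
theorem pQMFp : QMFp_stmt := FI3.QMFp pQMXp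
theorem pQGLp : QGLp_stmt := FI3.QGLp pQLAp aLA_LAF pQMFp qQEM AllC.cFBC AllA.dSTC AllA.dEXB
theorem pQGO3 : QGO3_stmt := FI3.QGO3 AllA.dGDC AllA.dDFL AllA.dEXB pQGLp
theorem pLG3 : LG3_stmt := FI3.LG3t pQGO3

end Pool.Agent.FI3.AllP3
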